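import Mathlib

/-! Cloning a transitive quadruple gains five vertices at the price of one more vertex in the
largest transitive subtournament. -/

set_option autoImplicit false

namespace Pool.Agent.P.MP_bf4cfc_co

open Finset

variable {V : Type}

/-- `T` is a tournament. -/
structure Tour (T : V → V → Bool) : Prop where
  irr : ∀ i, T i i = false
  tot : ∀ i j, i ≠ j → (T i j = true ↔ T j i = false)

/-- `T` contains a transitive subtournament on `k` vertices. -/
def HasTT (T : V → V → Bool) (k : ℕ) : Prop :=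
  ∃ f : Fin k → V, Function.Injective f ∧ ∀ a b : Fin k, a < b → T (f a) (f b) = true

/-- No cyclic triangle in `A`. -/
def NC (T : V → V → Bool) (A : Finset V) : Prop :=
  ∀ a ∈ A, ∀ b ∈ A, T a b = true → ∀ c ∈ A, T b c = true → T c a = false

variable {T : V → V → Bool}

theorem Tour.asy (h : Tour T) {a b : V} (e : T a b = true) : T b a = false :=
  (h.tot a b fun c => by rw [c, h.irr] at e; exact Bool.noConfusion e).1 e

theorem Tour.opp (h : Tour T) {a b : V} (n : a ≠ b) (e : T a b = false) : T b a = true :=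
  (h.tot b a n.symm).2 e

theorem Tour.lt (h : Tour T) {k : ℕ} {f : Fin k → V} (hf : ∀ a b, a < b → T (f a) (f b) = true)
    {a b : Fin k} (e : T (f a) (f b) = true) : a < b := by
  rcases lt_trichotomy a b with c | c | c
  · exact c
  · rw [c, h.irr] at e
    exact Bool.noConfusion e
  · rw [h.asy (hf _ _ c)] at e
    exact Bool.noConfusion e

theorem Tour.of_set (h : Tour T) {A : Finset V} (hA : NC T A) {k : ℕ} (hk : k ≤ #A) :
    HasTT T k := by
  classical
  have : IsStrictTotalOrder A fun a b => T a b = true :=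
    { trichotomous := fun a b h1 h2 => by
        by_contra c
        exact h1 (h.opp (fun e => c (Subtype.ext e.symm)) (Bool.eq_false_iff.2 h2))
      irrefl := fun a => by simp [h.irr]
      trans := fun a b c h1 h2 => h.opp (fun e => by
        rw [e, h.asy h1] at h2
        exact Bool.noConfusion h2) (hA _ a.2 _ b.2 h1 _ c.2 h2) }
  let := linearOrderOfSTO fun a b : A => T a b = true
  let e := monoEquivOfFin A (Fintype.card_coe A)
  exact ⟨fun i => e (i.castLE hk), Subtype.val_injective.comp (e.injective.comp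
    (Fin.castLE_injective hk)), fun a b c => e.strictMono (show a.castLE hk < b.castLE hk from c)⟩

theorem Tour.to_set (h : Tour T) {k : ℕ} (hk : HasTT T k) : ∃ A : Finset V, #A = k ∧ NC T A := by
  obtain ⟨f, h1, h2⟩ := hk
  refine ⟨univ.map ⟨f, h1⟩, by simp, ?_⟩
  simp only [NC, mem_map, mem_univ, true_and, forall_exists_index, forall_apply_eq_imp_iff]
  exact fun a b e c e' => h.asy (h2 _ _ ((h.lt h2 e).trans (h.lt h2 e')))

/-- The nine clones. -/
def gH (a b : Fin 9) : Bool := Nat.testBit 351975512281982830244150 (9 * a + b)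

/-- The vertex that is cloned. -/
def gp (a : Fin 9) : Fin 4 := ![0, 0, 1, 1, 1, 2, 2, 3, 3] a

theorem gH_tour : Tour gH := ⟨by decide +kernel, by decide +kernel⟩

instance (Z : Finset (Fin 9)) : Decidable (NC gH Z) := by unfold NC; infer_instance

/-- No vertex outside separates two vertices of `Y` in the wrong order. -/
def Cut (Z : Finset (Fin 9)) (Y C : Finset (Fin 4)) : Prop :=
  (∀ z ∈ Z, gp z ∈ C → ∀ z' ∈ Z, gp z' ∉ C → gH z z' = true) →
    ∀ u ∈ Y, u ∈ C → ∀ v ∈ Y, v ∉ C → u < v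

instance (Z : Finset (Fin 9)) (Y C : Finset (Fin 4)) : Decidable (Cut Z Y C) :=
  have : Decidable (∀ z ∈ Z, gp z ∈ C → ∀ z' ∈ Z, gp z' ∉ C → gH z z' = true) := inferInstance
  have : Decidable (∀ u ∈ Y, u ∈ C → ∀ v ∈ Y, v ∉ C → u < v) := inferInstance
  instDecidableForall

theorem gH_ok : ∀ Z : Finset (Fin 9), NC gH Z →
    ∃ Y : Finset (Fin 4), Y ⊆ Z.image gp ∧ #Z ≤ #Y + 1 ∧ ∀ C, Cut Z Y C := by
  decide +kernel

/-- The tournament with the clones. -/
def clone (T : V → V → Bool) (e : Fin 4 → V) :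
    {x // x ∉ Set.range e} ⊕ Fin 9 → {x // x ∉ Set.range e} ⊕ Fin 9 → Bool
  | .inl x, .inl y => T x y
  | .inl x, .inr z => T x (e (gp z))
  | .inr z, .inl x => T (e (gp z)) x
  | .inr z, .inr w => gH z w

theorem Tour.cl (h : Tour T) (e : Fin 4 → V) : Tour (clone T e) :=
  ⟨by rintro (x | x); exacts [h.irr _, gH_tour.irr _], by
    rintro (x | x) (y | y) n
    · exact h.tot _ _ fun c => n (congrArg _ (Subtype.ext c))
    · exact h.tot _ _ fun c => x.2 ⟨_, c.symm⟩
    · exact h.tot _ _ fun c => y.2 ⟨_, c⟩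
    · exact gH_tour.tot _ _ fun c => n (congrArg _ c)⟩

theorem Tour.gain (h : Tour T) {e : Fin 4 → V} (h1 : Function.Injective e)
    (h2 : ∀ a b, a < b → T (e a) (e b) = true) {k : ℕ} (hk : HasTT (clone T e) (k + 1)) :
    HasTT T k := by
  classical
  obtain ⟨A, hc, hA⟩ := (h.cl e).to_set hk
  obtain ⟨Y, hY, y1, y2⟩ := gH_ok A.toRight fun a ha b hb e1 c hc e2 =>
    hA _ (mem_toRight.1 ha) _ (mem_toRight.1 hb) e1 _ (mem_toRight.1 hc) e2
  have cut : ∀ x ∈ A.toLeft, ∀ u ∈ Y, ∀ v ∈ Y, T (e u) x = true → T x (e v) = true →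
      T (e v) (e u) = false := fun x hx u hu v hv e1 e2 =>
    h.asy (h2 _ _ (y2 (univ.filter fun w => T (e w) x = true) (fun z hz c z' hz' c' =>
      gH_tour.opp (fun e => c' (e ▸ c)) (hA _ (mem_toRight.1 hz) _ (mem_toLeft.1 hx)
        (mem_filter.1 c).2 _ (mem_toRight.1 hz') (h.opp (fun c => x.2 ⟨_, c⟩) (by simpa using c'))))
      u hu (by simpa using e1) v hv (by simpa using h.asy e2)))
  have one : ∀ x ∈ A.toLeft, ∀ y ∈ A.toLeft, ∀ u ∈ Y, T x y = true → T y (e u) = true →
      T (e u) x = false := fun x hx y hy u hu e1 e2 => by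
    obtain ⟨z, hz, rfl⟩ := mem_image.1 (hY hu)
    exact hA _ (mem_toLeft.1 hx) _ (mem_toLeft.1 hy) e1 _ (mem_toRight.1 hz) e2
  refine h.of_set (A := A.toLeft.map (.subtype _) ∪ Y.map ⟨e, h1⟩) ?_ ?_
  · simp only [NC, mem_union, mem_map]
    rintro _ (⟨a, ha, rfl⟩ | ⟨a, ha, rfl⟩) _ (⟨b, hb, rfl⟩ | ⟨b, hb, rfl⟩) e1 _
      (⟨c, hc, rfl⟩ | ⟨c, hc, rfl⟩) e2 <;> refine Bool.eq_false_iff.2 fun e3 => ?_
    · exact Bool.eq_false_iff.1 (hA _ (mem_toLeft.1 ha) _ (mem_toLeft.1 hb) e1 _
        (mem_toLeft.1 hc) e2) e3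
    · exact Bool.eq_false_iff.1 (one a ha b hb c hc e1 e2) e3
    · exact Bool.eq_false_iff.1 (one c hc a ha b hb e3 e1) e2
    · exact Bool.eq_false_iff.1 (cut a ha c hc b hb e3 e1) e2
    · exact Bool.eq_false_iff.1 (one b hb c hc a ha e2 e3) e1
    · exact Bool.eq_false_iff.1 (cut b hb a ha c hc e1 e2) e3
    · exact Bool.eq_false_iff.1 (cut c hc b hb a ha e2 e3) e1
    · exact lt_asymm ((h.lt h2 e1).trans (h.lt h2 e2)) (h.lt h2 e3)
  · rw [card_union_of_disjoint, card_map, card_map]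
    · have := A.card_toLeft_add_card_toRight
      omega
    · simp only [disjoint_left, mem_map]
      rintro _ ⟨a, -, rfl⟩ ⟨b, -, c⟩
      exact a.2 ⟨b, c⟩

end Pool.Agent.P.MP_bf4cfc_co
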