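import Pool.Agent.P.MP_bf4cfc_co.Gain

/-! Degrees in extremal tournaments. -/

set_option autoImplicit false

namespace Pool.Agent.P.MP_bf4cfc_co

open Finset

variable {V : Type} {T : V → V → Bool}

theorem HasTT.mono {k j : ℕ} (h : HasTT T k) (e : j ≤ k) : HasTT T j :=
  let ⟨f, h1, h2⟩ := h
  ⟨fun i => f (i.castLE e), h1.comp (Fin.castLE_injective e), fun _ _ c => h2 _ _ c⟩

theorem HasTT.rev {k : ℕ} (h : HasTT (fun a b => T b a) k) : HasTT T k :=
  let ⟨f, h1, h2⟩ := h
  ⟨fun i => f i.rev, h1.comp Fin.rev_injective, fun _ _ c => h2 _ _ (Fin.rev_lt_rev.2 c)⟩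

theorem Tour.rev (h : Tour T) : Tour fun a b => T b a := ⟨h.irr, fun i j n => h.tot j i n.symm⟩

theorem Tour.comap (h : Tour T) {W : Type} {g : W → V} (hg : Function.Injective g) :
    Tour fun a b => T (g a) (g b) := ⟨fun _ => h.irr _, fun _ _ n => h.tot _ _ (hg.ne n)⟩

theorem NC.ins [DecidableEq V] (h : Tour T) {A : Finset V} (hA : NC T A) {v : V}
    (hv : (∀ a ∈ A, T v a = true) ∨ ∀ a ∈ A, T a v = true) : NC T (insert v A) := by
  have key : ∀ b ∈ insert v A, ∀ c ∈ insert v A, T v b = true → T c v = true → T b c = false := by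
    intro b hb c hc e1 e2
    rcases hv with hv | hv
    · rcases mem_insert.1 hc with rfl | hc
      · rw [h.irr] at e2
        exact Bool.noConfusion e2
      · rw [h.asy (hv c hc)] at e2
        exact Bool.noConfusion e2
    · rcases mem_insert.1 hb with rfl | hb
      · rw [h.irr] at e1
        exact Bool.noConfusion e1
      · rw [h.asy (hv b hb)] at e1
        exact Bool.noConfusion e1
  intro a ha b hb e1 c hc e2
  refine Bool.eq_false_iff.2 fun e3 => ?_
  rcases mem_insert.1 ha with rfl | ha'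
  · exact Bool.eq_false_iff.1 (key b hb c hc e1 e3) e2
  rcases mem_insert.1 hb with rfl | hb'
  · exact Bool.eq_false_iff.1 (key c hc a ha e2 e1) e3
  rcases mem_insert.1 hc with rfl | hc'
  · exact Bool.eq_false_iff.1 (key a ha b hb e3 e2) e1
  exact Bool.eq_false_iff.1 (hA a ha' b hb' e1 c hc' e2) e3

theorem Tour.deg [DecidableEq V] (h : Tour T) {A : Finset V} {v : V} (hv : v ∈ A) :
    #{u ∈ A | T v u = true} + #{u ∈ A | T u v = true} + 1 = #A := by
  rw [← card_erase_add_one hv, ← card_union_of_disjoint (disjoint_filter.2 fun u _ a => by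
    simp [h.asy a])]
  congr 2
  ext u
  by_cases e : u = v
  · simp [e, h.irr]
  · have := h.tot u v e
    cases c : T v u <;> simp_all

theorem Tour.ram [DecidableEq V] (h : Tour T) : ∀ (j : ℕ) (A : Finset V), 2 ^ j ≤ #A →
    ∃ B ⊆ A, #B = j + 1 ∧ NC T B
  | 0, A, hA => by
    obtain ⟨v, hv⟩ := card_pos.1 hA
    exact ⟨insert v ∅, by simpa, rfl, NC.ins h (fun _ a => by simp at a) (.inl (by simp))⟩
  | j + 1, A, hA => by
    obtain ⟨v, hv⟩ := card_pos.1 ((pow_pos two_pos _).trans_le hA)
    have := h.deg hv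
    rcases (by omega : 2 ^ j ≤ #{u ∈ A | T v u = true} ∨ 2 ^ j ≤ #{u ∈ A | T u v = true}) with c | c <;>
      obtain ⟨B, h1, h2, h3⟩ := h.ram j _ c <;>
      refine ⟨insert v B, insert_subset hv (h1.trans (filter_subset _ _)), by
        rw [card_insert_of_notMem fun a => by simpa [h.irr] using h1 a, h2], NC.ins h h3 ?_⟩
    exacts [.inl fun a ha => (mem_filter.1 (h1 ha)).2, .inr fun a ha => (mem_filter.1 (h1 ha)).2]

/-- A circulant tournament on thirteen vertices. -/
def st (a b : Fin 13) : Bool := b - a ∈ [1, 2, 3, 5, 6, 9]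

theorem st_tour : Tour st := ⟨by decide +kernel, by decide +kernel⟩

theorem st_five : ¬HasTT st 5 := fun ⟨f, _, h⟩ => by
  have key : ∀ a b, st a b = true → ∀ c, (st a c && st b c) = true →
      ∀ d, (st a d && st b d && st c d) = true →
        ∀ e, (st a e && st b e && st c e && st d e) = false := by decide +kernel
  have := key (f 0) (f 1) (h _ _ (by decide)) (f 2) (by simp [h]) (f 3) (by simp [h]) (f 4)
  simp [h] at this

theorem big {n k : ℕ} (hn : ∀ S : Fin n → Fin n → Bool, Tour S → HasTT S k) [Fintype V]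
    (h : Tour T) (hV : n ≤ Fintype.card V) : HasTT T k := by
  obtain ⟨g⟩ := Function.Embedding.nonempty_of_card_le ((Fintype.card_fin n).trans_le hV)
  obtain ⟨f, h1, h2⟩ := hn _ (h.comap g.injective)
  exact ⟨g ∘ f, g.injective.comp h1, h2⟩

/-- If every tournament on `n` vertices contains a transitive one on `k + 1` vertices, then so does
with `k` every tournament on at least `8` and at least `n - 5` vertices. -/
theorem step {n k : ℕ} (hn : ∀ S : Fin n → Fin n → Bool, Tour S → HasTT S (k + 1)) [Fintype V]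
    (h : Tour T) (h8 : 8 ≤ Fintype.card V) (hV : n ≤ Fintype.card V + 5) : HasTT T k := by
  classical
  obtain ⟨B, -, h1, h2⟩ := h.ram 3 univ h8
  obtain ⟨e, e1, e2⟩ := h.of_set h2 h1.ge
  refine h.gain e1 e2 (big hn (h.cl e) ?_)
  rw [Fintype.card_sum, Fintype.card_subtype_compl, Set.card_range_of_injective e1,
    Fintype.card_fin, Fintype.card_fin]
  omega

theorem outdeg {n k : ℕ} (hk : 5 ≤ k) {T : Fin n → Fin n → Bool} (h : Tour T) (h1 : ¬HasTT T k)
    (hn : ∀ S : Fin (n + 1) → Fin (n + 1) → Bool, Tour S → HasTT S k) (v : Fin n) :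
    4 ≤ #{u | T v u = true} := by
  obtain ⟨k, rfl⟩ : ∃ j, k = j + 1 := ⟨k - 1, by omega⟩
  have h2 : 13 ≤ n := not_lt.1 fun c => st_five ((big hn st_tour (by simpa using c)).mono hk)
  have h3 := h.deg (mem_univ v)
  rw [card_univ, Fintype.card_fin] at h3
  by_contra c
  have h4 := h.comap (Subtype.val_injective (p := fun u => T u v = true))
  obtain ⟨A, a1, a2⟩ := h4.to_set (step hn h4 (by rw [Fintype.card_subtype]; omega)
    (by rw [Fintype.card_subtype]; omega))
  refine h1 (h.of_set (NC.ins h (A := A.map (.subtype _)) ?_ (v := v) (.inr ?_)) ?_)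
  · simp only [NC, mem_map]
    rintro _ ⟨a, ha, rfl⟩ _ ⟨b, hb, rfl⟩ e1 _ ⟨c, hc, rfl⟩ e2
    exact a2 a ha b hb e1 c hc e2
  · simp only [mem_map]
    rintro _ ⟨a, -, rfl⟩
    exact a.2
  · rw [card_insert_of_notMem, card_map, a1]
    simp [h.irr]

end Pool.Agent.P.MP_bf4cfc_co
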